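import Mathlib

/-!
# Lipschitz vectors of a unitary representation

If the displacement of `η` is small whenever the displacement of `ξ` is small, then `η` can be
approximated by vectors `ζ` whose displacement is bounded by a multiple of the displacement of `ξ`.
-/

set_option autoImplicit false

namespace Pool.Agent.Helper49.BC

open Finset

section inter

variable {H : Type*} [NormedAddCommGroup H] [InnerProductSpace ℝ H] [CompleteSpace H]

/-- The point of minimal norm of a closed convex set. -/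
theorem exists_min {K : Set H} (hne : K.Nonempty) (hcl : IsClosed K) (hcv : Convex ℝ K) :
    ∃ p ∈ K, ∀ w ∈ K, ‖p‖ ^ 2 + ‖w - p‖ ^ 2 ≤ ‖w‖ ^ 2 := by
  obtain ⟨p, hp, h1⟩ := exists_norm_eq_iInf_of_complete_convex hne hcl.isComplete hcv (0 : H)
  refine ⟨p, hp, fun w hw => ?_⟩
  have h2 := (norm_eq_iInf_iff_real_inner_le_zero hcv hp).1 h1 w hw
  rw [zero_sub, inner_neg_left] at h2
  have h3 : ‖w‖ ^ 2 = ‖p + (w - p)‖ ^ 2 := by rw [add_sub_cancel]
  rw [h3, norm_add_sq_real]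
  linarith

/-- A directed family of nonempty closed convex uniformly bounded sets has a common point. -/
theorem exists_common {ι : Type*} [Nonempty ι] {C : ι → Set H} (hne : ∀ i, (C i).Nonempty)
    (hcl : ∀ i, IsClosed (C i)) (hcv : ∀ i, Convex ℝ (C i)) {R : ℝ}
    (hb : ∀ i, ∀ w ∈ C i, ‖w‖ ≤ R) (hd : ∀ i j, ∃ k, C k ⊆ C i ∧ C k ⊆ C j) :
    ∃ p, ∀ i, p ∈ C i := by
  choose p hp hmin using fun i => exists_min (hne i) (hcl i) (hcv i)
  obtain ⟨S, hS⟩ : ∃ S, S = Set.range (fun i => ‖p i‖ ^ 2) := ⟨_, rfl⟩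
  have hSb : BddAbove S := by
    refine ⟨R ^ 2, ?_⟩
    rw [hS]
    rintro _ ⟨i, rfl⟩
    exact pow_le_pow_left₀ (norm_nonneg _) (hb i _ (hp i)) 2
  have hSn : S.Nonempty := by
    rw [hS]
    exact Set.range_nonempty _
  have hle : ∀ i, ‖p i‖ ^ 2 ≤ sSup S := fun i => le_csSup hSb (by rw [hS]; exact ⟨i, rfl⟩)
  have key : ∀ ε > 0, ∃ i, ∀ k, C k ⊆ C i → ‖p k - p i‖ ^ 2 < ε := by
    intro ε hε
    obtain ⟨a, ha, h1⟩ := exists_lt_of_lt_csSup hSn (show sSup S - ε < sSup S by linarith)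
    rw [hS] at ha
    obtain ⟨i, rfl⟩ := ha
    refine ⟨i, fun k hk => ?_⟩
    have h2 := hmin i (p k) (hk (hp k))
    have h3 := hle k
    simp only at h1
    linarith
  obtain ⟨F, hF⟩ : ∃ F : Filter H, F = ⨅ i, Filter.principal (p '' {k | C k ⊆ C i}) := ⟨_, rfl⟩
  have hdir : Directed (· ≥ ·) (fun i => Filter.principal (p '' {k | C k ⊆ C i})) := by
    intro i j
    obtain ⟨k, h1, h2⟩ := hd i j
    refine ⟨k, ?_, ?_⟩
    · exact Filter.principal_mono.2 (Set.image_mono fun l hl => hl.trans h1)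
    · exact Filter.principal_mono.2 (Set.image_mono fun l hl => hl.trans h2)
  have hmem : ∀ s, s ∈ F ↔ ∃ i, p '' {k | C k ⊆ C i} ⊆ s := by
    intro s
    rw [hF, Filter.mem_iInf_of_directed hdir]
    simp only [Filter.mem_principal]
  have hFne : F.NeBot := by
    rw [Filter.neBot_iff]
    intro h
    have h1 : (∅ : Set H) ∈ F := by rw [h]; exact Filter.mem_bot
    obtain ⟨i, hi⟩ := (hmem _).1 h1
    exact hi ⟨i, le_refl (C i), rfl⟩
  have hC : Cauchy F := by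
    rw [Metric.cauchy_iff]
    refine ⟨hFne, fun ε hε => ?_⟩
    obtain ⟨i, hi⟩ := key ((ε / 2) ^ 2) (by positivity)
    refine ⟨p '' {k | C k ⊆ C i}, (hmem _).2 ⟨i, le_refl _⟩, ?_⟩
    rintro _ ⟨k, hk, rfl⟩ _ ⟨l, hl, rfl⟩
    have h1 : ‖p k - p i‖ < ε / 2 := lt_of_pow_lt_pow_left₀ 2 (by positivity) (hi k hk)
    have h2 : ‖p l - p i‖ < ε / 2 := lt_of_pow_lt_pow_left₀ 2 (by positivity) (hi l hl)
    calc dist (p k) (p l) ≤ dist (p k) (p i) + dist (p i) (p l) := dist_triangle _ _ _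
      _ = ‖p k - p i‖ + ‖p l - p i‖ := by rw [dist_eq_norm, dist_comm (p i), dist_eq_norm]
      _ < ε := by linarith
  obtain ⟨q, hq⟩ := CompleteSpace.complete hC
  refine ⟨q, fun i => ?_⟩
  refine (hcl i).mem_of_frequently_of_tendsto ?_ (show Filter.Tendsto id F (nhds q) from hq)
  refine Filter.Eventually.frequently ?_
  refine (hmem _).2 ⟨i, ?_⟩
  rintro _ ⟨k, hk, rfl⟩
  exact hk (hp k)

end inter

section lip

variable {H : Type*} [NormedAddCommGroup H] [InnerProductSpace ℝ H]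
variable {G : Type*} [Group G]

theorem disp_eq {U : H →L[ℝ] H} (hU : ∀ v, ‖U v‖ = ‖v‖) (v : H) :
    ‖U v - v‖ ^ 2 = 2 * inner ℝ (v - U v) v := by
  rw [norm_sub_sq_real, hU, inner_sub_left, real_inner_self_eq_norm_sq]
  ring

theorem sq_convex {a b : ℝ} (ha : 0 ≤ a) (hb : 0 ≤ b) (hab : a + b = 1) (u v : H) :
    ‖a • u + b • v‖ ^ 2 ≤ a * ‖u‖ ^ 2 + b * ‖v‖ ^ 2 := by
  have h1 : ‖a • u + b • v‖ ≤ a * ‖u‖ + b * ‖v‖ := by
    refine (norm_add_le _ _).trans ?_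
    rw [norm_smul, norm_smul, Real.norm_of_nonneg ha, Real.norm_of_nonneg hb]
  have h2 : ‖a • u + b • v‖ ^ 2 ≤ (a * ‖u‖ + b * ‖v‖) ^ 2 :=
    pow_le_pow_left₀ (norm_nonneg _) h1 2
  have h3 : a * ‖u‖ ^ 2 + b * ‖v‖ ^ 2 - (a * ‖u‖ + b * ‖v‖) ^ 2 = a * b * (‖u‖ - ‖v‖) ^ 2 := by
    have hb' : b = 1 - a := by linarith
    subst hb'
    ring
  have h4 : 0 ≤ a * b * (‖u‖ - ‖v‖) ^ 2 := by positivity
  linarith

theorem inner_le_of_contr {T : H →L[ℝ] H} (hT : ∀ v, ‖T v‖ ≤ ‖v‖) (v : H) :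
    |inner ℝ (T v) v| ≤ ‖v‖ ^ 2 := by
  refine (abs_real_inner_le_norm _ _).trans ?_
  rw [sq]
  exact mul_le_mul_of_nonneg_right (hT v) (norm_nonneg _)

/-- Symmetric contractions: `1 - T ^ m ≤ m (1 - T)`. -/
theorem one_sub_pow_le {T : H →L[ℝ] H} (hT : ∀ v, ‖T v‖ ≤ ‖v‖)
    (hs : ∀ v w, inner ℝ (T v) w = inner ℝ v (T w)) (ξ : H) (m : ℕ) :
    inner ℝ (ξ - (T ^ m) ξ) ξ ≤ m * inner ℝ (ξ - T ξ) ξ := by
  have hq0 : ∀ v : H, 0 ≤ inner ℝ (v - T v) v := by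
    intro v
    have h1 := (abs_le.1 (inner_le_of_contr hT v)).2
    rw [inner_sub_left, real_inner_self_eq_norm_sq]
    linarith
  have hq1 : ∀ v : H, inner ℝ (T v - T (T v)) (T v) ≤ inner ℝ (v - T v) v := by
    intro v
    have h1 := (abs_le.1 (inner_le_of_contr hT (v - T v))).1
    have h2 : ‖v - T v‖ ^ 2 = inner ℝ (v - T v) (v - T v) := (real_inner_self_eq_norm_sq _).symm
    have h3 : inner ℝ (T (v - T v)) (v - T v) =
        inner ℝ (T v) v - inner ℝ (T v) (T v) - (inner ℝ (T (T v)) v - inner ℝ (T (T v)) (T v)) := by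
      rw [map_sub, inner_sub_left, inner_sub_right, inner_sub_right]
    have h4 : inner ℝ (v - T v) (v - T v) =
        inner ℝ v v - inner ℝ v (T v) - (inner ℝ (T v) v - inner ℝ (T v) (T v)) := by
      rw [inner_sub_left, inner_sub_right, inner_sub_right]
    have h5 : inner ℝ v (T v) = inner ℝ (T v) v := real_inner_comm _ _
    have h6 : inner ℝ (T (T v)) v = inner ℝ (T v) (T v) := hs (T v) v
    rw [h2, h3, h4, h5, h6] at h1
    rw [inner_sub_left, inner_sub_left]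
    linarith
  have hqj : ∀ j : ℕ, inner ℝ ((T ^ j) ξ - T ((T ^ j) ξ)) ((T ^ j) ξ) ≤ inner ℝ (ξ - T ξ) ξ := by
    intro j
    induction j with
    | zero => simp
    | succ j ih =>
      rw [pow_succ']
      exact (hq1 _).trans ih
  have hqj' : ∀ j : ℕ, inner ℝ ((T ^ j) ξ - T ((T ^ j) ξ)) ξ ≤ inner ℝ (ξ - T ξ) ξ := by
    intro j
    obtain ⟨v, hv⟩ : ∃ v, v = (T ^ j) ξ := ⟨_, rfl⟩
    have h1 := hqj j
    rw [← hv] at h1 ⊢
    have h2 := hq0 (v - ξ)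
    rw [map_sub] at h2
    have h3 : v - ξ - (T v - T ξ) = (v - T v) - (ξ - T ξ) := by abel
    rw [h3, inner_sub_left, inner_sub_right, inner_sub_right] at h2
    have h4 : inner ℝ (ξ - T ξ) v = inner ℝ (v - T v) ξ := by
      rw [inner_sub_left, inner_sub_left, hs ξ v, real_inner_comm v ξ, real_inner_comm (T v) ξ]
    linarith
  induction m with
  | zero => simp
  | succ m ih =>
    have h1 : ξ - (T ^ (m + 1)) ξ = (ξ - (T ^ m) ξ) + ((T ^ m) ξ - T ((T ^ m) ξ)) := by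
      rw [pow_succ']
      show ξ - T ((T ^ m) ξ) = _
      abel
    rw [h1, inner_add_left]
    have h2 := hqj' m
    rw [Nat.cast_succ, add_mul, one_mul]
    exact add_le_add ih h2

variable (π : G → H →L[ℝ] H)

theorem hull_mul (hm : ∀ g h v, π (g * h) v = π g (π h v)) {A B : H →L[ℝ] H}
    (hA : A ∈ convexHull ℝ (Set.range π)) (hB : B ∈ convexHull ℝ (Set.range π)) :
    A * B ∈ convexHull ℝ (Set.range π) := by
  have h1 : ∀ g, π g * B ∈ convexHull ℝ (Set.range π) := by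
    intro g
    have h2 : convexHull ℝ (Set.range π) ⊆ {B | π g * B ∈ convexHull ℝ (Set.range π)} := by
      refine convexHull_min ?_ ?_
      · rintro _ ⟨k, rfl⟩
        refine subset_convexHull ℝ _ ⟨g * k, ?_⟩
        ext v
        exact hm g k v
      · intro X hX Y hY a b ha hb hab
        have h3 : π g * (a • X + b • Y) = a • (π g * X) + b • (π g * Y) := by
          rw [mul_add, mul_smul_comm, mul_smul_comm]
        show π g * (a • X + b • Y) ∈ convexHull ℝ (Set.range π)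
        rw [h3]
        exact convex_convexHull ℝ _ hX hY ha hb hab
    exact h2 hB
  have h2 : convexHull ℝ (Set.range π) ⊆ {A | A * B ∈ convexHull ℝ (Set.range π)} := by
    refine convexHull_min ?_ ?_
    · rintro _ ⟨k, rfl⟩
      exact h1 k
    · intro X hX Y hY a b ha hb hab
      have h3 : (a • X + b • Y) * B = a • (X * B) + b • (Y * B) := by
        rw [add_mul, smul_mul_assoc, smul_mul_assoc]
      show (a • X + b • Y) * B ∈ convexHull ℝ (Set.range π)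
      rw [h3]
      exact convex_convexHull ℝ _ hX hY ha hb hab
  exact h2 hA

theorem hull_pow (h1 : ∀ v, π 1 v = v) (hm : ∀ g h v, π (g * h) v = π g (π h v)) {A : H →L[ℝ] H}
    (hA : A ∈ convexHull ℝ (Set.range π)) (n : ℕ) : A ^ n ∈ convexHull ℝ (Set.range π) := by
  induction n with
  | zero =>
    refine subset_convexHull ℝ _ ⟨1, ?_⟩
    ext v
    exact h1 v
  | succ n ih =>
    rw [pow_succ]
    exact hull_mul π hm ih hA

omit [Group G] in
theorem hull_disp (hn : ∀ g v, ‖π g v‖ = ‖v‖) {ξ η : H} {ε C : ℝ}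
    (hyp : ∀ g, ‖π g η - η‖ ^ 2 ≤ ε + C * ‖π g ξ - ξ‖ ^ 2) {A : H →L[ℝ] H}
    (hA : A ∈ convexHull ℝ (Set.range π)) :
    ‖A η - η‖ ^ 2 ≤ ε + C * (2 * inner ℝ (ξ - A ξ) ξ) := by
  have h2 : convexHull ℝ (Set.range π) ⊆
      {A | ‖A η - η‖ ^ 2 ≤ ε + C * (2 * inner ℝ (ξ - A ξ) ξ)} := by
    refine convexHull_min ?_ ?_
    · rintro _ ⟨g, rfl⟩
      show ‖π g η - η‖ ^ 2 ≤ _
      rw [← disp_eq (hn g)]
      exact hyp g
    · intro X hX Y hY a b ha hb hab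
      have hX' : ‖X η - η‖ ^ 2 ≤ ε + C * (2 * inner ℝ (ξ - X ξ) ξ) := hX
      have hY' : ‖Y η - η‖ ^ 2 ≤ ε + C * (2 * inner ℝ (ξ - Y ξ) ξ) := hY
      show ‖(a • X + b • Y) η - η‖ ^ 2 ≤ ε + C * (2 * inner ℝ (ξ - (a • X + b • Y) ξ) ξ)
      have h3 : (a • X + b • Y) η - η = a • (X η - η) + b • (Y η - η) := by
        have : (1 : ℝ) • η = (a + b) • η := by rw [hab]
        rw [one_smul] at this
        show a • X η + b • Y η - η = _
        nth_rewrite 3 [this]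
        module
      have h4 : ξ - (a • X + b • Y) ξ = a • (ξ - X ξ) + b • (ξ - Y ξ) := by
        have : (1 : ℝ) • ξ = (a + b) • ξ := by rw [hab]
        rw [one_smul] at this
        show ξ - (a • X ξ + b • Y ξ) = _
        nth_rewrite 1 [this]
        module
      rw [h3, h4, inner_add_left, real_inner_smul_left, real_inner_smul_left]
      have h5 : ‖a • (X η - η) + b • (Y η - η)‖ ^ 2 ≤
          a * ‖X η - η‖ ^ 2 + b * ‖Y η - η‖ ^ 2 := by
        exact sq_convex ha hb hab _ _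
      have h6 : a * ‖X η - η‖ ^ 2 ≤ a * (ε + C * (2 * inner ℝ (ξ - X ξ) ξ)) :=
        mul_le_mul_of_nonneg_left hX' ha
      have h7 : b * ‖Y η - η‖ ^ 2 ≤ b * (ε + C * (2 * inner ℝ (ξ - Y ξ) ξ)) :=
        mul_le_mul_of_nonneg_left hY' hb
      have h8 : ε = (a + b) * ε := by rw [hab, one_mul]
      rw [h8]
      nlinarith
  exact h2 hA

omit [Group G] in
theorem hull_mem {V : Set H} (hcv : Convex ℝ V) {η : H} (hη : ∀ g, π g η ∈ V) {A : H →L[ℝ] H}
    (hA : A ∈ convexHull ℝ (Set.range π)) : A η ∈ V := by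
  have h2 : convexHull ℝ (Set.range π) ⊆ {A | A η ∈ V} := by
    refine convexHull_min ?_ ?_
    · rintro _ ⟨g, rfl⟩
      exact hη g
    · intro X hX Y hY a b ha hb hab
      exact hcv hX hY ha hb hab
  exact h2 hA

/-- Part (a): for a finitely supported measure `m` on the group. -/
theorem exists_energy (h1 : ∀ v, π 1 v = v) (hm : ∀ g h v, π (g * h) v = π g (π h v))
    (hn : ∀ g v, ‖π g v‖ = ‖v‖) {V : Set H} (hcv : Convex ℝ V) {ξ η : H} (hηV : ∀ g, π g η ∈ V)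
    {r C : ℝ} (hr : 0 < r) (hC : 0 < C)
    (hyp : ∀ g, ‖π g η - η‖ ^ 2 ≤ r ^ 2 / 2 + C * ‖π g ξ - ξ‖ ^ 2)
    {ι : Type*} [Fintype ι] (g : ι → G) {m : ι → ℝ} (hm0 : ∀ i, 0 ≤ m i) (hm1 : ∑ i, m i = 1)
    {δ : ℝ} (hδ : 0 < δ) :
    ∃ ζ ∈ V, ‖ζ - η‖ ≤ r ∧ ∑ i, m i * ‖π (g i) ζ - ζ‖ ^ 2 ≤
      (16 * C * ‖η‖ ^ 2 / r ^ 2) * (∑ i, m i * ‖π (g i) ξ - ξ‖ ^ 2) + δ := by
  -- the operator
  obtain ⟨T, hTdef⟩ : ∃ T : H →L[ℝ] H, T = ∑ i, (m i / 2) • (π (g i) + π (g i)⁻¹) := ⟨_, rfl⟩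
  have hTv : ∀ v, T v = ∑ i, (m i / 2) • (π (g i) v + π (g i)⁻¹ v) := by
    intro v
    rw [hTdef]
    simp
  have hinner : ∀ (g : G) (v w : H), inner ℝ (π g v) (π g w) = inner ℝ v w := by
    intro g v w
    have e1 : inner ℝ (π g v) (π g w) = (‖π g v + π g w‖ ^ 2 - ‖π g v‖ ^ 2 - ‖π g w‖ ^ 2) / 2 := by
      rw [norm_add_sq_real]
      ring
    have e2 : inner ℝ v w = (‖v + w‖ ^ 2 - ‖v‖ ^ 2 - ‖w‖ ^ 2) / 2 := by
      rw [norm_add_sq_real]
      ring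
    rw [e1, e2, ← map_add, hn, hn, hn]
  have hadj : ∀ (g : G) (v w : H), inner ℝ (π g v) w = inner ℝ v (π g⁻¹ w) := by
    intro g v w
    rw [← hinner g v (π g⁻¹ w), ← hm, mul_inv_cancel, h1]
  have hadj' : ∀ (g : G) (v w : H), inner ℝ (π g⁻¹ v) w = inner ℝ v (π g w) := by
    intro g v w
    have := hadj g⁻¹ v w
    rwa [inv_inv] at this
  have hTs : ∀ v w, inner ℝ (T v) w = inner ℝ v (T w) := by
    intro v w
    rw [hTv, hTv, sum_inner, inner_sum]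
    refine Finset.sum_congr rfl fun i _ => ?_
    rw [real_inner_smul_left, real_inner_smul_right, inner_add_left, inner_add_right, hadj, hadj']
    ring
  have hThull : T ∈ convexHull ℝ (Set.range π) := by
    have e : T = ∑ i, m i • ((1 / 2 : ℝ) • π (g i) + (1 / 2 : ℝ) • π (g i)⁻¹) := by
      rw [hTdef]
      refine Finset.sum_congr rfl fun i _ => ?_
      module
    rw [e]
    refine (convex_convexHull ℝ _).sum_mem (fun i _ => hm0 i) hm1 fun i _ => ?_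
    exact convex_convexHull ℝ (Set.range π) (subset_convexHull ℝ _ (Set.mem_range_self (g i)))
      (subset_convexHull ℝ _ (Set.mem_range_self (g i)⁻¹)) (by norm_num) (by norm_num) (by norm_num)
  have hTn : ∀ v, ‖T v‖ ≤ ‖v‖ := by
    intro v
    have := hull_mem π (V := Metric.closedBall (0 : H) ‖v‖) (convex_closedBall _ _) (η := v)
      (fun g => by rw [mem_closedBall_zero_iff, hn]) hThull
    rwa [mem_closedBall_zero_iff] at this
  have hE : ∀ v, ∑ i, m i * ‖π (g i) v - v‖ ^ 2 = 2 * inner ℝ (v - T v) v := by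
    intro v
    have e1 : ∀ i, m i * ‖π (g i) v - v‖ ^ 2 = m i * (2 * ‖v‖ ^ 2) - m i * (2 * inner ℝ (π (g i) v) v) := by
      intro i
      rw [disp_eq (hn (g i)), inner_sub_left, real_inner_self_eq_norm_sq]
      ring
    rw [Finset.sum_congr rfl fun i _ => e1 i, Finset.sum_sub_distrib, ← Finset.sum_mul, hm1, one_mul,
      inner_sub_left, real_inner_self_eq_norm_sq, hTv, sum_inner, mul_sub]
    congr 1
    rw [Finset.mul_sum]
    refine Finset.sum_congr rfl fun i _ => ?_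
    rw [real_inner_smul_left, inner_add_left, hadj' (g i) v v, real_inner_comm v (π (g i) v)]
    ring
  obtain ⟨E, hEdef⟩ : ∃ E, E = ∑ i, m i * ‖π (g i) ξ - ξ‖ ^ 2 := ⟨_, rfl⟩
  have hE0 : 0 ≤ E := by
    rw [hEdef]
    exact Finset.sum_nonneg fun i _ => mul_nonneg (hm0 i) (by positivity)
  rw [← hEdef]
  have hηV1 : η ∈ V := by
    have := hηV 1
    rwa [h1] at this
  have hEη : ∑ i, m i * ‖π (g i) η - η‖ ^ 2 ≤ 4 * ‖η‖ ^ 2 := by
    have e1 : ∀ i, m i * ‖π (g i) η - η‖ ^ 2 ≤ m i * (4 * ‖η‖ ^ 2) := by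
      intro i
      refine mul_le_mul_of_nonneg_left ?_ (hm0 i)
      have e2 : ‖π (g i) η - η‖ ≤ 2 * ‖η‖ := by
        refine (norm_sub_le _ _).trans ?_
        rw [hn]
        linarith
      have e3 := pow_le_pow_left₀ (norm_nonneg _) e2 2
      linarith [e3, mul_pow (2 : ℝ) ‖η‖ 2]
    refine (Finset.sum_le_sum fun i _ => e1 i).trans ?_
    rw [← Finset.sum_mul, hm1, one_mul]
  -- the general estimate
  have main : ∀ n : ℕ, 0 < n → C * n * E ≤ r ^ 2 / 2 → ∃ ζ ∈ V, ‖ζ - η‖ ≤ r ∧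
      ∑ i, m i * ‖π (g i) ζ - ζ‖ ^ 2 ≤ 4 * ‖η‖ ^ 2 / n := by
    intro n hn0 hnE
    have hn0' : (0 : ℝ) < n := by exact_mod_cast hn0
    have hpow : ∀ k < n, (T ^ k) η ∈ V ∩ Metric.closedBall η r := by
      intro k hk
      have hk' := hull_pow π h1 hm hThull k
      refine ⟨hull_mem π hcv hηV hk', ?_⟩
      rw [mem_closedBall_iff_norm]
      have e1 := hull_disp π hn hyp hk'
      have e2 := one_sub_pow_le hTn hTs ξ k
      have e3 : E = 2 * inner ℝ (ξ - T ξ) ξ := by rw [hEdef, hE]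
      have e4 : (k : ℝ) * inner ℝ (ξ - T ξ) ξ ≤ n * inner ℝ (ξ - T ξ) ξ := by
        refine mul_le_mul_of_nonneg_right (by exact_mod_cast hk.le) ?_
        linarith
      have e5 : C * (2 * inner ℝ (ξ - (T ^ k) ξ) ξ) ≤ C * (n * E) := by
        refine mul_le_mul_of_nonneg_left ?_ hC.le
        rw [e3]
        linarith
      have e6 : ‖(T ^ k) η - η‖ ^ 2 ≤ r ^ 2 := by
        have : C * (n * E) = C * n * E := by ring
        linarith
      exact le_of_sq_le_sq e6 hr.le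
    obtain ⟨ζ, hζ⟩ : ∃ ζ : H, ζ = ∑ k ∈ Finset.range n, (1 / (n : ℝ)) • (T ^ k) η := ⟨_, rfl⟩
    have hζm : ζ ∈ V ∩ Metric.closedBall η r := by
      rw [hζ]
      refine (hcv.inter (convex_closedBall _ _)).sum_mem (fun i _ => by positivity) ?_ ?_
      · rw [Finset.sum_const, Finset.card_range, nsmul_eq_mul]
        field_simp
      · intro k hk
        exact hpow k (Finset.mem_range.1 hk)
    refine ⟨ζ, hζm.1, mem_closedBall_iff_norm.1 hζm.2, ?_⟩
    have hζn : ‖ζ‖ ≤ ‖η‖ := by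
      have e : ζ ∈ Metric.closedBall (0 : H) ‖η‖ := by
        rw [hζ]
        refine (convex_closedBall _ _).sum_mem (fun i _ => by positivity) ?_ ?_
        · rw [Finset.sum_const, Finset.card_range, nsmul_eq_mul]
          field_simp
        · intro k hk
          exact hull_mem π (convex_closedBall _ _) (fun g => by rw [mem_closedBall_zero_iff, hn])
            (hull_pow π h1 hm hThull k)
      rwa [mem_closedBall_zero_iff] at e
    have hTn' : ‖(T ^ n) η‖ ≤ ‖η‖ := by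
      have := hull_mem π (V := Metric.closedBall (0 : H) ‖η‖) (convex_closedBall _ _) (η := η)
        (fun g => by rw [mem_closedBall_zero_iff, hn]) (hull_pow π h1 hm hThull n)
      rwa [mem_closedBall_zero_iff] at this
    have htel : ζ - T ζ = (1 / (n : ℝ)) • (η - (T ^ n) η) := by
      rw [hζ, map_sum, ← Finset.sum_sub_distrib]
      have e1 : ∀ k ∈ Finset.range n, (1 / (n : ℝ)) • (T ^ k) η - T ((1 / (n : ℝ)) • (T ^ k) η) =
          (1 / (n : ℝ)) • ((T ^ k) η - (T ^ (k + 1)) η) := by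
        intro k _
        rw [map_smul, pow_succ', ← smul_sub]
        rfl
      rw [Finset.sum_congr rfl e1, ← Finset.smul_sum, Finset.sum_range_sub']
      rfl
    rw [hE, htel, real_inner_smul_left]
    have e1 : inner ℝ (η - (T ^ n) η) ζ ≤ 2 * ‖η‖ * ‖η‖ := by
      refine (real_inner_le_norm _ _).trans ?_
      refine mul_le_mul ?_ hζn (norm_nonneg _) (by positivity)
      exact (norm_sub_le _ _).trans (by linarith)
    have e2 : (1 / (n : ℝ)) * inner ℝ (η - (T ^ n) η) ζ ≤ (1 / (n : ℝ)) * (2 * ‖η‖ * ‖η‖) :=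
      mul_le_mul_of_nonneg_left e1 (by positivity)
    have e3 : 4 * ‖η‖ ^ 2 / n = 2 * ((1 / (n : ℝ)) * (2 * ‖η‖ * ‖η‖)) := by
      field_simp
      ring
    rw [e3]
    linarith
  have hr2 : 0 < r ^ 2 := by positivity
  obtain ⟨τ, hτ⟩ : ∃ τ, τ = r ^ 2 / (2 * C) := ⟨_, rfl⟩
  have hτ0 : 0 < τ := by rw [hτ]; positivity
  have hK : 16 * C * ‖η‖ ^ 2 / r ^ 2 = 8 * ‖η‖ ^ 2 / τ := by
    rw [hτ]
    field_simp
    ring
  rw [hK]
  rcases lt_or_ge τ E with hcase | hcase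
  · refine ⟨η, hηV1, by rw [sub_self, norm_zero]; exact hr.le, hEη.trans ?_⟩
    have e1 : 8 * ‖η‖ ^ 2 / τ * E = 8 * ‖η‖ ^ 2 * (E / τ) := by ring
    have e2 : 1 ≤ E / τ := by
      rw [le_div_iff₀ hτ0]
      linarith
    have e3 : 0 ≤ ‖η‖ ^ 2 := by positivity
    rw [e1]
    nlinarith
  · rcases hE0.eq_or_lt with h0 | h0
    · obtain ⟨n, hn1⟩ := exists_nat_gt (4 * ‖η‖ ^ 2 / δ)
      have hn0 : 0 < n := by
        have : (0 : ℝ) < n := lt_of_le_of_lt (by positivity) hn1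
        exact_mod_cast this
      obtain ⟨ζ, e1, e2, e3⟩ := main n hn0 (by rw [← h0]; simp; positivity)
      refine ⟨ζ, e1, e2, e3.trans ?_⟩
      have hn0' : (0 : ℝ) < n := by exact_mod_cast hn0
      have e4 : 4 * ‖η‖ ^ 2 / n ≤ δ := by
        rw [div_le_iff₀ hn0']
        rw [div_lt_iff₀ hδ] at hn1
        linarith
      rw [← h0]
      linarith
    · have hq : 1 ≤ τ / E := by
        rw [le_div_iff₀ h0]
        linarith
      have hn0 : 0 < ⌊τ / E⌋₊ := Nat.floor_pos.2 hq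
      have hn0' : (0 : ℝ) < (⌊τ / E⌋₊ : ℝ) := by exact_mod_cast hn0
      have hfl : (⌊τ / E⌋₊ : ℝ) ≤ τ / E := Nat.floor_le (by positivity)
      have hfl2 : τ / E < ⌊τ / E⌋₊ + 1 := Nat.lt_floor_add_one _
      obtain ⟨ζ, e1, e2, e3⟩ := main ⌊τ / E⌋₊ hn0 (by
        have e4 : (⌊τ / E⌋₊ : ℝ) * E ≤ τ := by
          rwa [le_div_iff₀ h0] at hfl
        have e5 : C * τ = r ^ 2 / 2 := by
          rw [hτ]
          field_simp
        have e6 : C * (⌊τ / E⌋₊ : ℝ) * E = C * ((⌊τ / E⌋₊ : ℝ) * E) := by ring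
        rw [e6, ← e5]
        exact mul_le_mul_of_nonneg_left e4 hC.le)
      refine ⟨ζ, e1, e2, e3.trans ?_⟩
      have e7 : τ / E ≤ 2 * ⌊τ / E⌋₊ := by
        have : (1 : ℝ) ≤ ⌊τ / E⌋₊ := by exact_mod_cast hn0
        linarith
      have e8 : 4 * ‖η‖ ^ 2 / ⌊τ / E⌋₊ ≤ 8 * ‖η‖ ^ 2 / τ * E := by
        rw [div_le_iff₀ hn0']
        have e9 : 8 * ‖η‖ ^ 2 / τ * E * ⌊τ / E⌋₊ = 4 * ‖η‖ ^ 2 * (2 * ⌊τ / E⌋₊ * E / τ) := by ring
        rw [e9]
        have e10 : 1 ≤ 2 * ⌊τ / E⌋₊ * E / τ := by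
          rw [le_div_iff₀ hτ0, one_mul]
          rwa [div_le_iff₀ h0] at e7
        have e11 : 0 ≤ 4 * ‖η‖ ^ 2 := by positivity
        nlinarith
      linarith

/-- Part (b): finitely many group elements, by separation. -/
theorem exists_finite (h1 : ∀ v, π 1 v = v) (hm : ∀ g h v, π (g * h) v = π g (π h v))
    (hn : ∀ g v, ‖π g v‖ = ‖v‖) {V : Set H} (hcv : Convex ℝ V) {ξ η : H} (hηV : ∀ g, π g η ∈ V)
    {r C : ℝ} (hr : 0 < r) (hC : 0 < C)
    (hyp : ∀ g, ‖π g η - η‖ ^ 2 ≤ r ^ 2 / 2 + C * ‖π g ξ - ξ‖ ^ 2)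
    {ι : Type*} [Fintype ι] (g : ι → G) {δ : ℝ} (hδ : 0 < δ) :
    ∃ ζ ∈ V, ‖ζ - η‖ ≤ r ∧ ∀ i, ‖π (g i) ζ - ζ‖ ^ 2 ≤
      (16 * C * ‖η‖ ^ 2 / r ^ 2) * ‖π (g i) ξ - ξ‖ ^ 2 + δ := by
  classical
  obtain ⟨K, hK⟩ : ∃ K, K = 16 * C * ‖η‖ ^ 2 / r ^ 2 := ⟨_, rfl⟩
  rw [← hK]
  obtain ⟨F, hF⟩ : ∃ F : ι → H → ℝ, F = fun i ζ =>
      ‖π (g i) ζ - ζ‖ ^ 2 - K * ‖π (g i) ξ - ξ‖ ^ 2 := ⟨_, rfl⟩
  have hFc : ∀ i (u v : H) (a b : ℝ), 0 ≤ a → 0 ≤ b → a + b = 1 →
      F i (a • u + b • v) ≤ a * F i u + b * F i v := by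
    intro i u v a b ha hb hab
    rw [hF]
    simp only
    have e1 : π (g i) (a • u + b • v) - (a • u + b • v) =
        a • (π (g i) u - u) + b • (π (g i) v - v) := by
      rw [map_add, map_smul, map_smul]
      module
    rw [e1]
    have e2 := sq_convex ha hb hab (π (g i) u - u) (π (g i) v - v)
    have e3 : K * ‖π (g i) ξ - ξ‖ ^ 2 = (a + b) * (K * ‖π (g i) ξ - ξ‖ ^ 2) := by
      rw [hab, one_mul]
    rw [e3]
    nlinarith
  obtain ⟨S, hS⟩ : ∃ S : Set (ι → ℝ), S = {a | ∃ ζ ∈ V ∩ Metric.closedBall η r, ∀ i, F i ζ < a i} :=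
    ⟨_, rfl⟩
  have hSmem : ∀ a, a ∈ S ↔ ∃ ζ ∈ V ∩ Metric.closedBall η r, ∀ i, F i ζ < a i := by
    intro a
    rw [hS]
    rfl
  have hηV1 : η ∈ V := by
    have := hηV 1
    rwa [h1] at this
  have hSc : Convex ℝ S := by
    intro a ha b hb p q hp hq hpq
    rw [hSmem] at ha hb ⊢
    obtain ⟨u, hu, hu'⟩ := ha
    obtain ⟨v, hv, hv'⟩ := hb
    refine ⟨p • u + q • v, (hcv.inter (convex_closedBall _ _)) hu hv hp hq hpq, fun i => ?_⟩
    refine lt_of_le_of_lt (hFc i u v p q hp hq hpq) ?_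
    show p * F i u + q * F i v < p * a i + q * b i
    rcases hp.eq_or_lt with h0 | h0
    · have hq1 : q = 1 := by linarith
      rw [← h0, hq1]
      have := hv' i
      linarith
    · have e1 := mul_lt_mul_of_pos_left (hu' i) h0
      have e2 := mul_le_mul_of_nonneg_left (hv' i).le hq
      linarith
  have hSo : IsOpen S := by
    have : S = ⋃ ζ ∈ V ∩ Metric.closedBall η r, Set.pi Set.univ fun i => Set.Ioi (F i ζ) := by
      ext a
      rw [hSmem]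
      simp only [Set.mem_iUnion, Set.mem_pi, Set.mem_univ, true_imp_iff, Set.mem_Ioi, exists_prop]
    rw [this]
    exact isOpen_biUnion fun ζ _ => isOpen_set_pi Set.finite_univ fun i _ => isOpen_Ioi
  by_contra hcon
  have hnot : (fun _ => δ : ι → ℝ) ∉ S := by
    intro hmem
    obtain ⟨ζ, hζ, h3⟩ := (hSmem _).1 hmem
    refine hcon ⟨ζ, hζ.1, mem_closedBall_iff_norm.1 hζ.2, fun i => ?_⟩
    have := h3 i
    rw [hF] at this
    simp only at this
    linarith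
  obtain ⟨f, hf⟩ := geometric_hahn_banach_open_point hSc hSo hnot
  obtain ⟨c, hc⟩ : ∃ c : ι → ℝ, c = fun i => f (Pi.single i 1) := ⟨_, rfl⟩
  have hfs : ∀ a : ι → ℝ, f a = ∑ i, a i * c i := by
    intro a
    have e1 : a = ∑ i, a i • (Pi.single i (1 : ℝ) : ι → ℝ) := by
      ext j
      simp [Finset.sum_apply, Pi.single_apply]
    nth_rewrite 1 [e1]
    rw [map_sum]
    refine Finset.sum_congr rfl fun i _ => ?_
    rw [map_smul, smul_eq_mul, hc]
  -- a point of S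
  have hbase : ∀ ζ ∈ V ∩ Metric.closedBall η r, ∀ s > 0, (fun i => F i ζ + s) ∈ S := by
    intro ζ hζ s hs
    rw [hSmem]
    exact ⟨ζ, hζ, fun i => by linarith⟩
  have hη0 : η ∈ V ∩ Metric.closedBall η r := ⟨hηV1, Metric.mem_closedBall_self hr.le⟩
  have hcn : ∀ i, c i ≤ 0 := by
    intro i
    by_contra hci
    push Not at hci
    have e1 : ∀ t : ℝ, 0 ≤ t → (fun j => F j η + 1 + t * (Pi.single i (1 : ℝ) : ι → ℝ) j) ∈ S := by
      intro t ht
      rw [hSmem]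
      refine ⟨η, hη0, fun j => ?_⟩
      have : 0 ≤ t * (Pi.single i (1 : ℝ) : ι → ℝ) j := by
        refine mul_nonneg ht ?_
        rw [Pi.single_apply]
        split_ifs <;> norm_num
      linarith
    obtain ⟨A, hA⟩ : ∃ A, A = ∑ j, (F j η + 1) * c j := ⟨_, rfl⟩
    have e2 : ∀ t : ℝ, 0 ≤ t → A + t * c i < f (fun _ => δ) := by
      intro t ht
      have e3 := hf _ (e1 t ht)
      rw [hfs] at e3
      have e4 : ∑ j, (F j η + 1 + t * (Pi.single i (1 : ℝ) : ι → ℝ) j) * c j = A + t * c i := by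
        rw [hA]
        have e5 : ∀ j, (F j η + 1 + t * (Pi.single i (1 : ℝ) : ι → ℝ) j) * c j =
            (F j η + 1) * c j + t * ((Pi.single i (1 : ℝ) : ι → ℝ) j * c j) := fun j => by ring
        rw [Finset.sum_congr rfl fun j _ => e5 j, Finset.sum_add_distrib, ← Finset.mul_sum]
        congr 2
        simp [Pi.single_apply]
      rwa [e4] at e3
    have e6 := e2 ((|f (fun _ => δ) - A| + 1) / c i) (by positivity)
    rw [div_mul_cancel₀ _ hci.ne'] at e6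
    have e7 := le_abs_self (f (fun _ => δ) - A)
    linarith
  obtain ⟨M, hM⟩ : ∃ M, M = ∑ i, -c i := ⟨_, rfl⟩
  have hM0 : 0 ≤ M := by
    rw [hM]
    exact Finset.sum_nonneg fun i _ => by linarith [hcn i]
  have hfδ : f (fun _ => δ) = -(δ * M) := by
    rw [hfs, hM, Finset.mul_sum, ← Finset.sum_neg_distrib]
    exact Finset.sum_congr rfl fun i _ => by ring
  rcases hM0.eq_or_lt with h0 | h0
  · have hc0 : ∀ i, c i = 0 := by
      intro i
      have := (Finset.sum_eq_zero_iff_of_nonneg (fun i _ => by linarith [hcn i])).1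
        (hM.symm.trans h0.symm) i (Finset.mem_univ i)
      linarith
    have e1 := hf _ (hbase η hη0 1 one_pos)
    rw [hfs, hfs] at e1
    simp only [hc0, mul_zero, Finset.sum_const_zero, lt_irrefl] at e1
  · obtain ⟨ζ, hζ1, hζ2, hζ3⟩ := exists_energy π h1 hm hn hcv hηV hr hC hyp g
      (m := fun i => -c i / M) (fun i => div_nonneg (by linarith [hcn i]) hM0)
      (by rw [← Finset.sum_div, ← hM, div_self h0.ne']) (half_pos hδ)
    rw [← hK] at hζ3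
    have e1 := hf _ (hbase ζ ⟨hζ1, mem_closedBall_iff_norm.2 hζ2⟩ (δ / 4) (by linarith))
    rw [hfs, hfδ] at e1
    have e2 : ∑ i, (F i ζ + δ / 4) * c i = -(M * (∑ i, (-c i / M) * ‖π (g i) ζ - ζ‖ ^ 2 -
        K * ∑ i, (-c i / M) * ‖π (g i) ξ - ξ‖ ^ 2 + δ / 4)) := by
      have e3 : ∀ i, (F i ζ + δ / 4) * c i = -(M * ((-c i / M) * ‖π (g i) ζ - ζ‖ ^ 2 -
          K * ((-c i / M) * ‖π (g i) ξ - ξ‖ ^ 2) + (-c i / M) * (δ / 4))) := by
        intro i
        rw [hF]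
        simp only
        field_simp
        ring
      rw [Finset.sum_congr rfl fun i _ => e3 i, Finset.sum_neg_distrib, ← Finset.mul_sum,
        Finset.sum_add_distrib, Finset.sum_sub_distrib, ← Finset.mul_sum, ← Finset.sum_mul,
        ← Finset.sum_div, ← hM, div_self h0.ne', one_mul]
    rw [e2] at e1
    have e4 : ∑ i, (-c i / M) * ‖π (g i) ζ - ζ‖ ^ 2 -
        K * ∑ i, (-c i / M) * ‖π (g i) ξ - ξ‖ ^ 2 + δ / 4 ≤ 3 * δ / 4 := by linarith
    have e5 := mul_le_mul_of_nonneg_left e4 hM0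
    nlinarith

/-- **Lipschitz vectors.** -/
theorem exists_lipschitz [CompleteSpace H] (h1 : ∀ v, π 1 v = v)
    (hm : ∀ g h v, π (g * h) v = π g (π h v)) (hn : ∀ g v, ‖π g v‖ = ‖v‖) {V : Set H}
    (hcl : IsClosed V) (hcv : Convex ℝ V) {ξ η : H} (hηV : ∀ g, π g η ∈ V)
    (hyp : ∀ ε > 0, ∃ C : ℝ, ∀ g, ‖π g η - η‖ ^ 2 ≤ ε + C * ‖π g ξ - ξ‖ ^ 2) {r : ℝ} (hr : 0 < r) :
    ∃ ζ ∈ V, ‖ζ - η‖ ≤ r ∧ ∃ K : ℝ, 0 ≤ K ∧ ∀ g, ‖π g ζ - ζ‖ ≤ K * ‖π g ξ - ξ‖ := by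
  obtain ⟨C₀, hC₀⟩ := hyp (r ^ 2 / 2) (by positivity)
  obtain ⟨C, hCdef⟩ : ∃ C, C = max C₀ 1 := ⟨_, rfl⟩
  have hC : 0 < C := by
    rw [hCdef]
    exact lt_of_lt_of_le one_pos (le_max_right _ _)
  have hyp' : ∀ g, ‖π g η - η‖ ^ 2 ≤ r ^ 2 / 2 + C * ‖π g ξ - ξ‖ ^ 2 := by
    intro g
    have e1 : C₀ * ‖π g ξ - ξ‖ ^ 2 ≤ C * ‖π g ξ - ξ‖ ^ 2 := by
      refine mul_le_mul_of_nonneg_right ?_ (by positivity)
      rw [hCdef]
      exact le_max_left _ _
    have := hC₀ g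
    linarith
  obtain ⟨K, hK⟩ : ∃ K, K = 16 * C * ‖η‖ ^ 2 / r ^ 2 := ⟨_, rfl⟩
  have hK0 : 0 ≤ K := by
    rw [hK]
    positivity
  obtain ⟨D, hD⟩ : ∃ D : Finset G × ℕ → Set H, D = fun q => (V ∩ Metric.closedBall η r) ∩
      {ζ | ∀ g ∈ q.1, ‖π g ζ - ζ‖ ^ 2 ≤ K * ‖π g ξ - ξ‖ ^ 2 + 1 / ((q.2 : ℝ) + 1)} := ⟨_, rfl⟩
  have hDne : ∀ q, (D q).Nonempty := by
    intro q
    rw [hD]
    obtain ⟨ζ, e1, e2, e3⟩ := exists_finite π h1 hm hn hcv hηV hr hC hyp'
      (fun i : q.1 => (i : G)) (δ := 1 / ((q.2 : ℝ) + 1)) (by positivity)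
    refine ⟨ζ, ⟨e1, mem_closedBall_iff_norm.2 e2⟩, fun g hg => ?_⟩
    rw [hK]
    exact e3 ⟨g, hg⟩
  have hDcl : ∀ q, IsClosed (D q) := by
    intro q
    rw [hD]
    refine (hcl.inter Metric.isClosed_closedBall).inter ?_
    have : {ζ : H | ∀ g ∈ q.1, ‖π g ζ - ζ‖ ^ 2 ≤ K * ‖π g ξ - ξ‖ ^ 2 + 1 / ((q.2 : ℝ) + 1)} =
        ⋂ g ∈ q.1, {ζ | ‖π g ζ - ζ‖ ^ 2 ≤ K * ‖π g ξ - ξ‖ ^ 2 + 1 / ((q.2 : ℝ) + 1)} := by
      ext ζ
      simp
    rw [this]
    refine isClosed_biInter fun g _ => isClosed_le ?_ continuous_const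
    exact (((π g).continuous.sub continuous_id).norm).pow 2
  have hDcv : ∀ q, Convex ℝ (D q) := by
    intro q
    rw [hD]
    refine (hcv.inter (convex_closedBall _ _)).inter ?_
    intro u hu v hv a b ha hb hab g hg
    have e1 : π g (a • u + b • v) - (a • u + b • v) = a • (π g u - u) + b • (π g v - v) := by
      rw [map_add, map_smul, map_smul]
      module
    rw [e1]
    refine (sq_convex ha hb hab _ _).trans ?_
    have e2 := mul_le_mul_of_nonneg_left (hu g hg) ha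
    have e3 := mul_le_mul_of_nonneg_left (hv g hg) hb
    refine (add_le_add e2 e3).trans (le_of_eq ?_)
    rw [← add_mul, hab, one_mul]
  have hDb : ∀ q, ∀ w ∈ D q, ‖w‖ ≤ ‖η‖ + r := by
    intro q w hw
    rw [hD] at hw
    have e1 := mem_closedBall_iff_norm.1 hw.1.2
    calc ‖w‖ = ‖(w - η) + η‖ := by rw [sub_add_cancel]
      _ ≤ ‖w - η‖ + ‖η‖ := norm_add_le _ _
      _ ≤ ‖η‖ + r := by linarith
  have hDd : ∀ p q, ∃ k, D k ⊆ D p ∧ D k ⊆ D q := by
    intro p q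
    classical
    refine ⟨(p.1 ∪ q.1, max p.2 q.2), ?_, ?_⟩
    · rw [hD]
      rintro w ⟨h5, h6⟩
      refine ⟨h5, fun g hg => (h6 g (Finset.mem_union_left _ hg)).trans ?_⟩
      refine add_le_add le_rfl (one_div_le_one_div_of_le (by positivity) ?_)
      have : (p.2 : ℝ) ≤ ((max p.2 q.2 : ℕ) : ℝ) := by exact_mod_cast le_max_left _ _
      exact add_le_add this le_rfl
    · rw [hD]
      rintro w ⟨h5, h6⟩
      refine ⟨h5, fun g hg => (h6 g (Finset.mem_union_right _ hg)).trans ?_⟩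
      refine add_le_add le_rfl (one_div_le_one_div_of_le (by positivity) ?_)
      have : (q.2 : ℝ) ≤ ((max p.2 q.2 : ℕ) : ℝ) := by exact_mod_cast le_max_right _ _
      exact add_le_add this le_rfl
  obtain ⟨ζ, hζ⟩ := exists_common hDne hDcl hDcv hDb hDd
  have hζ0 := hζ (∅, 0)
  rw [hD] at hζ0
  refine ⟨ζ, hζ0.1.1, mem_closedBall_iff_norm.1 hζ0.1.2, Real.sqrt K, Real.sqrt_nonneg _,
    fun g => ?_⟩
  have e1 : ∀ n : ℕ, ‖π g ζ - ζ‖ ^ 2 ≤ K * ‖π g ξ - ξ‖ ^ 2 + 1 / ((n : ℝ) + 1) := by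
    intro n
    have := hζ ({g}, n)
    rw [hD] at this
    exact this.2 g (Finset.mem_singleton_self g)
  have e2 : ‖π g ζ - ζ‖ ^ 2 ≤ K * ‖π g ξ - ξ‖ ^ 2 := by
    refine ge_of_tendsto' (x := Filter.atTop) (f := fun n : ℕ =>
      K * ‖π g ξ - ξ‖ ^ 2 + 1 / ((n : ℝ) + 1)) ?_ e1
    have := (tendsto_one_div_add_atTop_nhds_zero_nat (𝕜 := ℝ)).const_add (K * ‖π g ξ - ξ‖ ^ 2)
    rwa [add_zero] at this
  refine le_of_sq_le_sq ?_ (by positivity)
  rw [mul_pow, Real.sq_sqrt hK0]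
  exact e2

end lip

section complex

variable {H : Type*} [NormedAddCommGroup H] [InnerProductSpace ℂ H] [CompleteSpace H]
variable {G : Type*} [Group G]

/-- **Lipschitz vectors**, for unitary representations on complex Hilbert spaces; the set `V` is
closed and convex over the real numbers. -/
theorem exists_lipschitz_complex (π : G → H →L[ℂ] H) (h1 : ∀ v, π 1 v = v)
    (hm : ∀ g h v, π (g * h) v = π g (π h v)) (hn : ∀ g v, ‖π g v‖ = ‖v‖) {V : Set H}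
    (hcl : IsClosed V) (hcv : Convex ℝ V) {ξ η : H} (hηV : ∀ g, π g η ∈ V)
    (hyp : ∀ ε > 0, ∃ C : ℝ, ∀ g, ‖π g η - η‖ ^ 2 ≤ ε + C * ‖π g ξ - ξ‖ ^ 2) {r : ℝ} (hr : 0 < r) :
    ∃ ζ ∈ V, ‖ζ - η‖ ≤ r ∧ ∃ K : ℝ, 0 ≤ K ∧ ∀ g, ‖π g ζ - ζ‖ ≤ K * ‖π g ξ - ξ‖ := by
  letI : InnerProductSpace ℝ H := InnerProductSpace.rclikeToReal ℂ H
  exact exists_lipschitz (fun g => (π g).restrictScalars ℝ) h1 hm hn hcl hcv hηV hyp hr

end complex

end Pool.Agent.Helper49.BC
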