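import Pool.Agent.Helper49.BC.Lip

/-!
# Lipschitz vectors for a set of unitaries
-/

set_option autoImplicit false

open scoped InnerProductSpace
open ContinuousLinearMap

namespace Pool.Agent.Helper49.BC

variable {H : Type*} [NormedAddCommGroup H] [InnerProductSpace ℂ H] [CompleteSpace H]

/-- A vector `η` that moves uniformly little when `ξ` moves little can be approximated by vectors
that move at most proportionally to `ξ`. -/
theorem lipschitz {S : Set (H →L[ℂ] H)} (hone : 1 ∈ S) (hmul : ∀ a ∈ S, ∀ b ∈ S, a * b ∈ S)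
    (hstar : ∀ a ∈ S, star a ∈ S) (huni : ∀ a ∈ S, star a * a = 1) {V : Set H}
    (hVc : Convex ℝ V) (hVcl : IsClosed V) (hVi : ∀ a ∈ S, ∀ v ∈ V, a v ∈ V) {ξ η : H}
    (hη : η ∈ V)
    (h : ∀ ε : ℝ, 0 < ε → ∃ C : ℝ, ∀ a ∈ S, ‖a η - η‖ ^ 2 ≤ ε + C * ‖a ξ - ξ‖ ^ 2)
    {r : ℝ} (hr : 0 < r) :
    ∃ ζ ∈ V, ‖ζ - η‖ ≤ r ∧ ∃ K : ℝ, 0 ≤ K ∧ ∀ a ∈ S, ‖a ζ - ζ‖ ≤ K * ‖a ξ - ξ‖ := by
  let inst : Group S :=
    { mul := fun a b => ⟨a.1 * b.1, hmul _ a.2 _ b.2⟩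
      one := ⟨1, hone⟩
      inv := fun a => ⟨star a.1, hstar _ a.2⟩
      mul_assoc := fun a b c => Subtype.ext (mul_assoc a.1 b.1 c.1)
      one_mul := fun a => Subtype.ext (one_mul a.1)
      mul_one := fun a => Subtype.ext (mul_one a.1)
      inv_mul_cancel := fun a => Subtype.ext (huni _ a.2) }
  have hn : ∀ (g : S) (v : H), ‖(g : H →L[ℂ] H) v‖ = ‖v‖ := by
    intro g v
    have h1 : ⟪(g : H →L[ℂ] H) v, (g : H →L[ℂ] H) v⟫_ℂ = ⟪v, v⟫_ℂ := by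
      rw [← adjoint_inner_right]
      have h2 := huni _ g.2
      rw [star_eq_adjoint] at h2
      have h3 : (adjoint (g : H →L[ℂ] H)) ((g : H →L[ℂ] H) v) = v := by
        have := congrArg (fun T : H →L[ℂ] H => T v) h2
        exact this
      rw [h3]
    rw [inner_self_eq_norm_sq_to_K, inner_self_eq_norm_sq_to_K] at h1
    have h2 : ‖(g : H →L[ℂ] H) v‖ ^ 2 = ‖v‖ ^ 2 := by exact_mod_cast h1
    exact (sq_eq_sq₀ (norm_nonneg _) (norm_nonneg _)).1 h2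
  obtain ⟨ζ, h1, h2, K, hK, h3⟩ := exists_lipschitz_complex (fun g : S => (g : H →L[ℂ] H))
    (fun _ => rfl) (fun _ _ _ => rfl) hn hVcl hVc (fun g => hVi _ g.2 _ hη)
    (fun ε hε => by
      obtain ⟨C, hC⟩ := h ε hε
      exact ⟨C, fun g => hC _ g.2⟩) hr
  exact ⟨ζ, h1, h2, K, hK, fun a ha => h3 ⟨a, ha⟩⟩

end Pool.Agent.Helper49.BC
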